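import Pool.Agent.H59.WC.Near

/-!
A plane of a family of planes which do not cross, whose stabiliser acts on it with compact quotient
(module E2 of the wandering continuum theorem).
-/

open Set Filter Topology

namespace Pool.Agent.H90.WC.Mk

open Pool.Agent.H90.WC

variable {Λ : Type*} [Group Λ] {ρ : Λ →* Module.End ℝ V} {Q : Set V}

namespace Setup

variable {q0 X0 : V}

/-- Sequences of points and unit vectors, bounded, have a convergent subsequence. -/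
theorem subseq {u : ℕ → V × V} {C : ℝ} (h : ∀ n, ‖u n‖ ≤ C) :
    ∃ a, ∃ φ : ℕ → ℕ, StrictMono φ ∧ Tendsto (u ∘ φ) atTop (𝓝 a) := by
  have hb : Bornology.IsBounded (Metric.closedBall (0 : V × V) C) := Metric.isBounded_closedBall
  obtain ⟨a, -, φ, hφ, ht⟩ := tendsto_subseq_of_bounded hb
    (fun n => mem_closedBall_zero_iff.2 (h n))
  exact ⟨a, φ, hφ, ht⟩

/-- Pairs of late members of a convergent sequence are in a given neighbourhood of the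
diagonal. -/
theorem late {u : ℕ → V × V} {a : V × V} {φ : ℕ → ℕ} (ht : Tendsto (u ∘ φ) atTop (𝓝 a))
    {W : Set ((V × V) × (V × V))} (hW : W ∈ 𝓝 (a, a)) :
    ∃ N, ∀ n ≥ N, ∀ m ≥ N, (u (φ n), u (φ m)) ∈ W := by
  rw [nhds_prod_eq, Filter.mem_prod_same_iff] at hW
  obtain ⟨U, hU, hUW⟩ := hW
  obtain ⟨N, hN⟩ := eventually_atTop.1 (ht.eventually hU)
  exact ⟨N, fun n hn m hm => hUW ⟨hN n hn, hN m hm⟩⟩

theorem cont2 (f : (V × V) × (V × V) → V × V) (hf : Continuous f) :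
    Continuous fun p => D (f p).1 (f p).2 := continuous_D.comp hf

theorem g4 (s : Setup ρ Q q0 X0) {e : ℝ} (he : 0 < e) : ∃ R : ℝ, ∀ Y ∈ H3, D q0 Y = 0 →
    (∀ q ∈ Qp Q q0, e ≤ -D q Y) → ∃ γ, ρ γ q0 = q0 ∧ ‖ρ γ Y‖ ≤ R := by
  by_contra hcon
  push Not at hcon
  choose Y hY h0 hbig hfar using fun n : ℕ => hcon n
  obtain ⟨R0, hR0⟩ := s.hA.coc
  choose δ hδ using fun n => hR0 (Y n) (hY n)
  have hD0 : ∀ n, D (ρ (δ n) q0) (ρ (δ n) (Y n)) = 0 := fun n => by rw [s.hA.form, h0]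
  have hq1 : ∀ n, D (ρ (δ n) q0) (ρ (δ n) q0) = -1 := fun n => by rw [s.hA.form, s.unit0]
  have hbd : ∀ n, ‖(ρ (δ n) (Y n), ρ (δ n) q0)‖ ≤ max R0 ((1 + 2 * 0) * R0 + 1) := by
    intro n
    refine max_le_max (hδ n) ?_
    exact f4 (hq1 n) (s.hA.pos _ _ (hY n)) (hδ n) (by rw [hD0, abs_zero])
  obtain ⟨a, φ, hφ, ht⟩ := subseq hbd
  have hlim1 : D a.2 a.2 = -1 := by
    have hc : Continuous fun p : V × V => D p.2 p.2 :=
      continuous_D.comp (continuous_snd.prodMk continuous_snd)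
    have h1 := (hc.tendsto a).comp ht
    refine tendsto_nhds_unique h1 ?_
    refine tendsto_const_nhds.congr fun n => ?_
    exact (hq1 _).symm
  have hlim2 : D a.2 a.1 = 0 := by
    have hc : Continuous fun p : V × V => D p.2 p.1 :=
      continuous_D.comp (continuous_snd.prodMk continuous_fst)
    have h1 := (hc.tendsto a).comp ht
    refine tendsto_nhds_unique h1 ?_
    refine tendsto_const_nhds.congr fun n => ?_
    exact (hD0 _).symm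
  have hW : {p : (V × V) × (V × V) | D p.1.2 p.2.2 < 1 ∧ -e < D p.1.2 p.2.1} ∈ 𝓝 (a, a) := by
    have o1 : IsOpen {p : (V × V) × (V × V) | D p.1.2 p.2.2 < 1} :=
      isOpen_lt (cont2 (fun p => (p.1.2, p.2.2)) (by fun_prop)) continuous_const
    have o2 : IsOpen {p : (V × V) × (V × V) | -e < D p.1.2 p.2.1} :=
      isOpen_lt continuous_const (cont2 (fun p => (p.1.2, p.2.1)) (by fun_prop))
    refine IsOpen.mem_nhds (o1.inter o2) ⟨?_, ?_⟩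
    · change D a.2 a.2 < 1
      rw [hlim1]; norm_num
    · change -e < D a.2 a.1
      rw [hlim2]; linarith
  obtain ⟨N, hN⟩ := late ht hW
  -- two late members are equal
  have key : ∀ i j, -e < D (ρ (δ i) q0) (ρ (δ j) (Y j)) → ρ (δ j) q0 - ρ (δ i) q0 ∈ Cp →
      ρ (δ i) q0 = ρ (δ j) q0 := by
    intro i j h1 h2
    by_contra hne
    have hq : ρ (δ j)⁻¹ (ρ (δ i) q0) ∈ Qp Q q0 := by
      refine ⟨s.hF.inv _ _ (s.hF.inv _ _ s.hq0), ?_, fun h3 => hne ?_⟩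
      · have := rho_Cp s.hA (δ j)⁻¹ h2
        rwa [map_sub, rho_inv_rho] at this
      · rw [← rho_rho_inv (ρ := ρ) (δ j) (ρ (δ i) q0), h3]
    have h4 := hbig j _ hq
    rw [D_rho_left s.hA, inv_inv] at h4
    linarith
  have heq : ∀ n ≥ N, ρ (δ (φ n)) q0 = ρ (δ (φ N)) q0 := by
    intro n hn
    obtain ⟨h1, h2⟩ := hN n hn N le_rfl
    obtain ⟨-, h3⟩ := hN N le_rfl n hn
    rcases cone_of_le s.hF (s.hF.inv (δ (φ n)) _ s.hq0) (s.hF.inv (δ (φ N)) _ s.hq0) h1 with h | h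
    · exact (key _ _ h3 h).symm
    · exact key _ _ h2 h
  obtain ⟨C, hC0, hC⟩ := linear_bound (ρ (δ (φ N))⁻¹)
  obtain ⟨n, hn⟩ := exists_nat_gt (C * R0)
  have hn2 : n ≤ φ (max n N) := (le_max_left n N).trans (hφ.id_le _)
  have h1 := hfar (φ (max n N)) ((δ (φ N))⁻¹ * δ (φ (max n N))) (by
    rw [rho_mul, heq _ (le_max_right n N), rho_inv_rho])
  rw [rho_mul] at h1
  have h2 := (hC (ρ (δ (φ (max n N))) (Y (φ (max n N))))).trans
    (mul_le_mul_of_nonneg_left (hδ _) hC0)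
  have h3 : (n : ℝ) ≤ (φ (max n N) : ℝ) := Nat.cast_le.2 hn2
  linarith

/-- Stabilisation: near planes at distance one from points of the extremal plane are moved by the
stabiliser into finitely many ones. -/
theorem stab (s : Setup ρ Q q0 X0) {q : ℕ → V} (hq : ∀ n, Near Q q0 (q n)) {Z : ℕ → V}
    (hZ : ∀ n, Z n ∈ H3) (h0 : ∀ n, D q0 (Z n) = 0) (h1 : ∀ n, D (q n) (Z n) = -1) :
    ∃ (R : ℝ) (γ : ℕ → Λ) (φ : ℕ → ℕ), StrictMono φ ∧
      (∀ n, ρ (γ n) q0 = q0 ∧ ‖ρ (γ n) (Z n)‖ ≤ R) ∧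
      ∀ n, ρ (γ (φ n)) (q (φ n)) = ρ (γ (φ 0)) (q (φ 0)) := by
  obtain ⟨R, hR⟩ := s.g4 one_pos
  choose γ hγ using fun n => hR (Z n) (hZ n) (h0 n) (s.ge_one (hq n) (hZ n) (h0 n) (h1 n))
  have hu : ∀ n, D (ρ (γ n) (q n)) (ρ (γ n) (q n)) = -1 := fun n => by
    rw [s.hA.form, s.hF.unit _ (hq n).1.1]
  have hbd : ∀ n, ‖(ρ (γ n) (q n), ρ (γ n) (q n))‖ ≤ (1 + 2 * 1) * R + 1 := by
    intro n
    have : ‖ρ (γ n) (q n)‖ ≤ (1 + 2 * 1) * R + 1 := by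
      refine f4 (hu n) (s.hA.pos _ _ (hZ n)) (hγ n).2 ?_
      rw [s.hA.form, h1]; norm_num
    exact max_le this this
  obtain ⟨a, φ, hφ, ht⟩ := subseq hbd
  have hlim1 : D a.1 a.1 = -1 := by
    have hc : Continuous fun p : V × V => D p.1 p.1 :=
      continuous_D.comp (continuous_fst.prodMk continuous_fst)
    have h1 := (hc.tendsto a).comp ht
    refine tendsto_nhds_unique h1 ?_
    refine tendsto_const_nhds.congr fun n => ?_
    exact (hu _).symm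
  have hW : {p : (V × V) × (V × V) | D p.1.1 p.2.1 < 1} ∈ 𝓝 (a, a) := by
    refine IsOpen.mem_nhds (isOpen_lt ?_ continuous_const) ?_
    · exact cont2 (fun p => (p.1.1, p.2.1)) (by fun_prop)
    · change D a.1 a.1 < 1
      rw [hlim1]; norm_num
  obtain ⟨N, hN⟩ := late ht hW
  have heq : ∀ n ≥ N, ρ (γ (φ n)) (q (φ n)) = ρ (γ (φ N)) (q (φ N)) := by
    intro n hn
    by_contra hne
    have h2 := s.near_pair ((hq (φ n)).rho s (hγ (φ n)).1) ((hq (φ N)).rho s (hγ (φ N)).1) hne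
    have h3 : D (ρ (γ (φ n)) (q (φ n))) (ρ (γ (φ N)) (q (φ N))) < 1 := hN n hn N le_rfl
    linarith
  refine ⟨R, γ, fun n => φ (N + n), fun i j hij => hφ (by omega), hγ, fun n => ?_⟩
  change ρ (γ (φ (N + n))) (q (φ (N + n))) = ρ (γ (φ (N + 0))) (q (φ (N + 0)))
  rw [heq (N + n) (by omega), heq (N + 0) (by omega)]

theorem dist_ineq (s : Setup ρ Q q0 X0) {q Y : V} (hq : D q q = -1) (hY : Y ∈ H3)
    (h0 : D q0 Y = 0) : (D q0 q) ^ 2 ≤ (D q Y) ^ 2 + 1 := by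
  have hYY : D Y Y = 1 := hY.1
  have h1 : D (q - D q Y • Y + D q0 q • q0) Y = 0 := by
    rw [D_add_left, D_sub_left, D_smul_left, D_smul_left, hYY, h0]; ring
  have h2 := nonpos_of_orth hY h1
  have h3 : D (q - D q Y • Y + D q0 q • q0) (q - D q Y • Y + D q0 q • q0) =
      -1 - (D q Y) ^ 2 + (D q0 q) ^ 2 := by
    simp only [D_add_left, D_sub_left, D_smul_left, D_add_right, D_sub_right, D_smul_right, hYY,
      h0, hq, s.unit0]
    rw [D_comm Y q, D_comm Y q0, h0, D_comm q q0]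
    ring
  rw [h3] at h2
  linarith

/-- The planes behind the extremal plane stay at a positive distance from it. -/
theorem g5 (s : Setup ρ Q q0 X0)
    (hpar : ∀ γ, ∀ q ∈ Q, ∀ q' ∈ Q, q ≠ q' → D q q' = -1 → ρ γ q = q → ρ γ q' = q' → ρ γ = 1) :
    ∃ c > (0 : ℝ), ∀ Y ∈ H3, D q0 Y = 0 → ∀ q ∈ Qp Q q0, c ≤ -D q Y := by
  by_contra hcon
  push Not at hcon
  have hseq : ∀ n : ℕ, ∃ Y ∈ H3, D q0 Y = 0 ∧ ∃ q, Near Q q0 q ∧ -D q Y < 1 / ((n : ℝ) + 1) := by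
    intro n
    obtain ⟨Y, hY, h0, q', hq', hlt⟩ := hcon (1 / ((n : ℝ) + 1)) (by positivity)
    obtain ⟨q, hq, hmin⟩ := s.exists_near ⟨q', hq'⟩ hY h0
    exact ⟨Y, hY, h0, q, hq, (hmin q' hq').trans_lt hlt⟩
  choose Y hY h0 q hq hlt using hseq
  have hle1 : ∀ n, -D (q n) (Y n) ≤ 1 := fun n => by
    refine (hlt n).le.trans ?_
    rw [div_le_one (by positivity)]
    linarith [Nat.cast_nonneg (α := ℝ) n]
  choose Z hZ hZ0 hZ1 using fun n => s.exists_Z (hq n).1 (hY n) (h0 n) (hle1 n)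
  obtain ⟨R, γ, φ, hφ, hγ, hst⟩ := s.stab hq hZ hZ0 hZ1
  -- the fixed near plane
  obtain ⟨p, hp⟩ : ∃ p, p = ρ (γ (φ 0)) (q (φ 0)) := ⟨_, rfl⟩
  have hpn : Near Q q0 p := by rw [hp]; exact (hq _).rho s (hγ _).1
  have hpu : D p p = -1 := s.hF.unit _ hpn.1.1
  have hple : D q0 p ≤ -1 := s.Qp_q0 hpn.1
  have hsmall : ∀ n : ℕ, (D q0 p) ^ 2 ≤ (1 / ((n : ℝ) + 1)) ^ 2 + 1 := by
    intro n
    have h1 := s.dist_ineq hpu (s.hA.pos (γ (φ n)) _ (hY (φ n)))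
      (by rw [← (hγ (φ n)).1, s.hA.form, h0])
    refine h1.trans (add_le_add ?_ le_rfl)
    have h2 : D p (ρ (γ (φ n)) (Y (φ n))) = D (q (φ n)) (Y (φ n)) := by
      rw [hp, ← hst n, s.hA.form]
    rw [h2]
    have h3 := hlt (φ n)
    have h4 := s.Qp_neg (hq (φ n)).1 (hY (φ n)) (h0 (φ n))
    have h5 : 1 / ((φ n : ℝ) + 1) ≤ 1 / ((n : ℝ) + 1) := by
      have : (n : ℝ) ≤ (φ n : ℝ) := Nat.cast_le.2 (hφ.id_le n)
      gcongr
    have h6 : -D (q (φ n)) (Y (φ n)) ≤ 1 / ((n : ℝ) + 1) := by linarith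
    have h7 : (-D (q (φ n)) (Y (φ n))) ^ 2 ≤ (1 / ((n : ℝ) + 1)) ^ 2 := by gcongr
    rwa [neg_sq] at h7
  have hpq0 : D q0 p = -1 := by
    have hlim : Tendsto (fun n : ℕ => (1 / ((n : ℝ) + 1)) ^ 2 + 1) atTop (𝓝 (0 ^ 2 + 1)) :=
      (tendsto_one_div_add_atTop_nhds_zero_nat.pow 2).add_const 1
    have h1 : (D q0 p) ^ 2 ≤ 0 ^ 2 + 1 := ge_of_tendsto' hlim hsmall
    nlinarith
  -- the null vector
  obtain ⟨M, hM⟩ : ∃ M, M = q0 - p := ⟨_, rfl⟩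
  have hMC : M ∈ Cp := by rw [hM]; exact hpn.1.2.1
  have hM0 : M ≠ 0 := by rw [hM]; exact sub_ne_zero.2 hpn.1.2.2.symm
  have hMM : D M M = 0 := by rw [hM, diff_self s.unit0 hpu, hpq0]; norm_num
  have hqM : D q0 M = 0 := by rw [hM, D_sub_right, s.unit0, hpq0]; norm_num
  have hpM : D p M = 0 := by rw [hM, D_sub_right, D_comm, hpq0, hpu]; norm_num
  obtain ⟨T, hT⟩ : ∃ T, T = ρ (γ (φ 0)) (Z (φ 0)) := ⟨_, rfl⟩
  have hTH : T ∈ H3 := by rw [hT]; exact s.hA.pos _ _ (hZ _)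
  have hTT : D T T = 1 := hTH.1
  have hqT : D q0 T = 0 := by rw [hT, ← (hγ (φ 0)).1, s.hA.form, hZ0]
  have hpT : D p T = -1 := by rw [hT, hp, s.hA.form, hZ1]
  have hMT : D M T = 1 := by rw [hM, D_sub_left, hqT, hpT]; norm_num
  obtain ⟨U, hUU, hUT, hUq, hUM⟩ := exists_unit hTH q0 M
  have hqU : D q0 U = 0 := by rw [D_comm, hUq]
  have hMU : D M U = 0 := by rw [D_comm, hUM]
  have hpU : D p U = 0 := by
    have : p = q0 - M := by rw [hM]; abel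
    rw [this, D_sub_left, hqU, hMU]; norm_num
  obtain ⟨S, hS⟩ : ∃ S : ℕ → V, ∀ n, S n = T + (n : ℝ) • U + ((n : ℝ) ^ 2 / 2) • M :=
    ⟨_, fun _ => rfl⟩
  have hS0 : ∀ n, D q0 (S n) = 0 := fun n => by
    rw [hS, D_add_right, D_add_right, D_smul_right, D_smul_right, hqT, hqU, hqM]; ring
  have hS1 : ∀ n, D p (S n) = -1 := fun n => by
    rw [hS, D_add_right, D_add_right, D_smul_right, D_smul_right, hpT, hpU, hpM]; ring
  have hSM : ∀ n, D M (S n) = 1 := fun n => by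
    rw [hM, D_sub_left, hS0, hS1]; norm_num
  have hSS : ∀ n, D (S n) (S n) = 1 := fun n => by
    rw [hS]
    simp only [D_add_left, D_add_right, D_smul_left, D_smul_right, hTT, hUU, hMM, hUT, hUM, hMT,
      hMU]
    rw [D_comm T U, D_comm T M, hUT, hMT]; ring
  have hSH : ∀ n, S n ∈ H3 := by
    intro n
    refine ⟨hSS n, ?_⟩
    rcases mem_or (v := S n) (by rw [hSS]; norm_num) with h | h
    · refine fst_pos h fun h2 => ?_
      have := hSS n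
      rw [h2, D_zero_left] at this
      norm_num at this
    · exfalso
      have := D_nonneg hMC h
      rw [D_neg_right, hSM] at this
      norm_num at this
  obtain ⟨R', γ', φ', hφ', hγ', hst'⟩ := s.stab (q := fun _ => p) (fun _ => hpn) hSH hS0 hS1
  have hrho : ∀ n, ρ (γ' (φ' n)) = ρ (γ' (φ' 0)) := by
    intro n
    have h1 : ρ ((γ' (φ' 0))⁻¹ * γ' (φ' n)) = 1 := by
      refine hpar _ q0 s.hq0 p hpn.1.1 hpn.1.2.2.symm hpq0 ?_ ?_
      · rw [rho_mul, (hγ' (φ' n)).1, inv_fix (hγ' (φ' 0)).1]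
      · rw [rho_mul, hst' n, rho_inv_rho]
    calc ρ (γ' (φ' n)) = ρ (γ' (φ' 0)) * ρ ((γ' (φ' 0))⁻¹ * γ' (φ' n)) := by
          rw [← map_mul, mul_inv_cancel_left]
      _ = _ := by rw [h1, mul_one]
  obtain ⟨C, hC0, hC⟩ := linear_bound (ρ (γ' (φ' 0))⁻¹)
  have hSb : ∀ n, ‖S (φ' n)‖ ≤ C * R' := by
    intro n
    have h1 : ρ (γ' (φ' 0))⁻¹ (ρ (γ' (φ' n)) (S (φ' n))) = S (φ' n) := by
      rw [hrho, rho_inv_rho]
    have h2 := (hC (ρ (γ' (φ' n)) (S (φ' n)))).trans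
      (mul_le_mul_of_nonneg_left (hγ' (φ' n)).2 hC0)
    rwa [h1] at h2
  have hUS : ∀ n, D U (S n) = -n := fun n => by
    rw [hS, D_add_right, D_add_right, D_smul_right, D_smul_right, hUT, hUU, hUM]; ring
  have hfin : ∀ n : ℕ, (n : ℝ) ≤ 2 * (‖U‖ * (C * R')) := by
    intro n
    have h1 := abs_D_le U (S (φ' n))
    rw [hUS, abs_neg, abs_of_nonneg (Nat.cast_nonneg _)] at h1
    have h2 : (n : ℝ) ≤ (φ' n : ℝ) := Nat.cast_le.2 (hφ'.id_le n)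
    have h3 := mul_le_mul_of_nonneg_left (hSb n) (norm_nonneg U)
    linarith
  obtain ⟨n, hn⟩ := exists_nat_gt (2 * (‖U‖ * (C * R')))
  exact absurd (hfin n) (not_le.2 hn)

end Setup

end Pool.Agent.H90.WC.Mk

namespace Pool.Agent.H90.WC

open Mk

variable {Λ : Type*} [Group Λ] {ρ : Λ →* Module.End ℝ V} {Q : Set V}

theorem exists_cocompact_plane (hA : Act ρ) (hF : Fam ρ Q)
    (hgap : ∃ X ∈ H3, ∀ q ∈ Q, D q X ≠ 0)
    (hpar : ∀ γ, ∀ q ∈ Q, ∀ q' ∈ Q, q ≠ q' → D q q' = -1 → ρ γ q = q → ρ γ q' = q' → ρ γ = 1) :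
    ∃ q ∈ Q, ∃ R : ℝ, ∀ Y ∈ H3, D q Y = 0 → ∃ γ, ρ γ q = q ∧ ‖ρ γ Y‖ ≤ R := by
  obtain ⟨q0, X0, s⟩ := exists_setup hA hF hgap
  obtain ⟨c, hc, h⟩ := s.g5 hpar
  obtain ⟨R, hR⟩ := s.g4 hc
  exact ⟨q0, s.hq0, R, fun Y hY h0 => hR Y hY h0 (h Y hY h0)⟩

end Pool.Agent.H90.WC
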