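import Pool.Agent.H90.WC.Mink

/-!
Basic facts on Minkowski space (module E2 of the wandering continuum theorem).
-/

open Set Filter Topology

namespace Pool.Agent.H90.WC.Mk

open Pool.Agent.H90.WC

/-! ### Algebra of the form -/

theorem D_comm (u v : V) : D u v = D v u := by
  unfold D; rw [real_inner_comm]; ring

theorem D_add_left (u v w : V) : D (u + v) w = D u w + D v w := by
  unfold D; simp only [Prod.fst_add, Prod.snd_add, inner_add_left]; ring

theorem D_sub_left (u v w : V) : D (u - v) w = D u w - D v w := by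
  unfold D; simp only [Prod.fst_sub, Prod.snd_sub, inner_sub_left]; ring

theorem D_neg_left (u w : V) : D (-u) w = -D u w := by
  unfold D; simp only [Prod.fst_neg, Prod.snd_neg, inner_neg_left]; ring

theorem D_smul_left (c : ℝ) (u w : V) : D (c • u) w = c * D u w := by
  unfold D; simp only [Prod.smul_fst, Prod.smul_snd, real_inner_smul_left, smul_eq_mul]; ring

theorem D_add_right (u v w : V) : D w (u + v) = D w u + D w v := by
  rw [D_comm, D_add_left, D_comm u, D_comm v]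

theorem D_sub_right (u v w : V) : D w (u - v) = D w u - D w v := by
  rw [D_comm, D_sub_left, D_comm u, D_comm v]

theorem D_neg_right (u w : V) : D w (-u) = -D w u := by
  rw [D_comm, D_neg_left, D_comm u]

theorem D_smul_right (c : ℝ) (u w : V) : D w (c • u) = c * D w u := by
  rw [D_comm, D_smul_left, D_comm u]

theorem D_zero_left (u : V) : D 0 u = 0 := by
  unfold D; simp

theorem D_self (v : V) : D v v = v.1 ^ 2 - ‖v.2‖ ^ 2 := by
  unfold D; rw [real_inner_self_eq_norm_sq]; ring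

theorem continuous_D : Continuous fun p : V × V => D p.1 p.2 := by
  unfold D; fun_prop

theorem abs_D_le (u v : V) : |D u v| ≤ 2 * (‖u‖ * ‖v‖) := by
  have h1 : |u.1 * v.1| ≤ ‖u‖ * ‖v‖ := by
    rw [abs_mul]
    exact mul_le_mul (norm_fst_le u) (norm_fst_le v) (abs_nonneg _) (norm_nonneg _)
  have h2 : |inner ℝ u.2 v.2| ≤ ‖u‖ * ‖v‖ :=
    (abs_real_inner_le_norm _ _).trans
      (mul_le_mul (norm_snd_le u) (norm_snd_le v) (norm_nonneg _) (norm_nonneg _))
  unfold D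
  calc |u.1 * v.1 - inner ℝ u.2 v.2| ≤ |u.1 * v.1| + |inner ℝ u.2 v.2| := abs_sub _ _
    _ ≤ 2 * (‖u‖ * ‖v‖) := by linarith

/-! ### The cone and hyperbolic space -/

theorem norm_lt {X : V} (hX : X ∈ H3) : ‖X.2‖ < X.1 := by
  obtain ⟨h, h0⟩ := hX
  rw [D_self] at h
  exact lt_of_pow_lt_pow_left₀ 2 h0.le (by linarith)

theorem H3_subset {X : V} (hX : X ∈ H3) : X ∈ Cp := (norm_lt hX).le

theorem fst_pos {v : V} (hv : v ∈ Cp) (h0 : v ≠ 0) : 0 < v.1 := by
  have h : ‖v.2‖ ≤ v.1 := hv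
  rcases (norm_nonneg v.2).eq_or_lt with h1 | h1
  · have h2 : v.2 = 0 := norm_eq_zero.1 h1.symm
    refine lt_of_le_of_ne ((norm_nonneg _).trans h) fun h3 => h0 ?_
    exact Prod.ext h3.symm h2
  · exact h1.trans_le h

theorem D_nonneg {u v : V} (hu : u ∈ Cp) (hv : v ∈ Cp) : 0 ≤ D u v := by
  have hu' : ‖u.2‖ ≤ u.1 := hu
  have hv' : ‖v.2‖ ≤ v.1 := hv
  have h := real_inner_le_norm u.2 v.2
  have h2 : ‖u.2‖ * ‖v.2‖ ≤ u.1 * v.1 :=
    mul_le_mul hu' hv' (norm_nonneg _) ((norm_nonneg _).trans hu')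
  unfold D
  linarith

theorem D_pos {u X : V} (hu : u ∈ Cp) (h0 : u ≠ 0) (hX : X ∈ H3) : 0 < D u X := by
  have hu' : ‖u.2‖ ≤ u.1 := hu
  have h1 := fst_pos hu h0
  have h2 := norm_lt hX
  have h := real_inner_le_norm u.2 X.2
  have h3 : ‖u.2‖ * ‖X.2‖ ≤ u.1 * ‖X.2‖ := mul_le_mul_of_nonneg_right hu' (norm_nonneg _)
  have h4 : u.1 * ‖X.2‖ < u.1 * X.1 := mul_lt_mul_of_pos_left h2 h1
  unfold D
  linarith

theorem mem_or {v : V} (h : 0 ≤ D v v) : v ∈ Cp ∨ -v ∈ Cp := by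
  rw [D_self] at h
  have h1 : ‖v.2‖ ≤ |v.1| := abs_le_of_sq_le_sq' (by rw [sq_abs]; linarith) (abs_nonneg _) |>.2
  rcases le_total 0 v.1 with h2 | h2
  · left
    rw [abs_of_nonneg h2] at h1
    exact h1
  · right
    rw [abs_of_nonpos h2] at h1
    change ‖(-v).2‖ ≤ (-v).1
    rw [Prod.snd_neg, Prod.fst_neg, norm_neg]
    exact h1

theorem D_self_nonneg {v : V} (hv : v ∈ Cp) : 0 ≤ D v v := D_nonneg hv hv

/-- The orthogonal complement of a point of hyperbolic space is negative definite. -/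
theorem neg_of_orth {X w : V} (hX : X ∈ H3) (h : D w X = 0) (hw : w ≠ 0) : D w w < 0 := by
  by_contra hcon
  rcases mem_or (not_lt.1 hcon) with h1 | h1
  · exact (D_pos h1 hw hX).ne' h
  · have := D_pos h1 (neg_ne_zero.2 hw) hX
    rw [D_neg_left, h] at this
    simp at this

theorem nonpos_of_orth {X w : V} (hX : X ∈ H3) (h : D w X = 0) : D w w ≤ 0 := by
  by_cases hw : w = 0
  · rw [hw, D_zero_left]
  · exact (neg_of_orth hX h hw).le

theorem f3 {u v X : V} (hu : u ∈ Cp) (hv : v ∈ Cp) (hX : X ∈ H3) :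
    D u v ≤ 2 * (D u X * D v X) := by
  by_cases hu0 : u = 0
  · rw [hu0, D_zero_left, D_zero_left]; simp
  by_cases hv0 : v = 0
  · rw [hv0, D_zero_left, D_comm, D_zero_left]; simp
  have ha := D_pos hu hu0 hX
  have hb := D_pos hv hv0 hX
  set a := D u X
  set b := D v X
  have hXX : D X X = 1 := hX.1
  have h1 : D (b • u + a • v - (2 * a * b) • X) X = 0 := by
    rw [D_sub_left, D_add_left, D_smul_left, D_smul_left, D_smul_left, hXX]
    change b * a + a * b - 2 * a * b * 1 = 0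
    ring
  have h2 := nonpos_of_orth hX h1
  have h3 : D (b • u + a • v - (2 * a * b) • X) (b • u + a • v - (2 * a * b) • X) =
      b ^ 2 * D u u + a ^ 2 * D v v + 2 * (a * b) * (D u v) - 4 * a ^ 2 * b ^ 2 := by
    simp only [D_sub_left, D_add_left, D_smul_left, D_sub_right, D_add_right, D_smul_right, hXX]
    rw [D_comm v u, D_comm X u, D_comm X v]
    change b * (b * D u u + a * D u v - 2 * a * b * a) + a * (b * D u v + a * D v v - 2 * a * b * b)
      - 2 * a * b * (b * a + a * b - 2 * a * b * 1) = _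
    ring
  rw [h3] at h2
  have h4 := D_self_nonneg hu
  have h5 := D_self_nonneg hv
  have h6 : 0 < 2 * (a * b) := by positivity
  have h7 : 2 * (a * b) * D u v ≤ 2 * (a * b) * (2 * (a * b)) := by nlinarith [sq_nonneg a, sq_nonneg b]
  exact le_of_mul_le_mul_left h7 h6

theorem f4 {q X : V} {c R : ℝ} (hq : D q q = -1) (hX : X ∈ H3) (hR : ‖X‖ ≤ R)
    (hc : |D q X| ≤ c) : ‖q‖ ≤ (1 + 2 * c) * R + 1 := by
  obtain ⟨a, ha⟩ : ∃ a, a = D q X := ⟨_, rfl⟩
  rw [← ha] at hc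
  have hc0 : 0 ≤ c := (abs_nonneg _).trans hc
  have hX1 : 0 < X.1 := hX.2
  have hXR : X.1 ≤ R := (le_abs_self _).trans ((norm_fst_le X).trans hR)
  have hXX : D X X = 1 := hX.1
  obtain ⟨w, hw⟩ : ∃ w, w = q - a • X := ⟨_, rfl⟩
  have h1 : D w X = 0 := by rw [hw, D_sub_left, D_smul_left, hXX, ha]; ring
  have h2 : D w w = -(1 + a ^ 2) := by
    rw [hw]
    simp only [D_sub_left, D_smul_left, D_sub_right, D_smul_right, hXX, hq]
    rw [D_comm X q, ← ha]; ring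
  have h3 : w.1 * X.1 = inner ℝ w.2 X.2 := by
    unfold D at h1; linarith
  have h4 : w.1 ^ 2 * X.1 ^ 2 ≤ ‖w.2‖ ^ 2 * ‖X.2‖ ^ 2 := by
    rw [← mul_pow, ← mul_pow, h3]
    exact sq_le_sq' (by linarith [neg_le_of_abs_le (abs_real_inner_le_norm w.2 X.2)])
      (real_inner_le_norm _ _)
  rw [D_self] at h2 hXX
  have h5 : w.1 ^ 2 ≤ ((1 + |a|) * R) ^ 2 := by
    have h6 : ‖X.2‖ ^ 2 = X.1 ^ 2 - 1 := by linarith
    have h7 : ‖w.2‖ ^ 2 = w.1 ^ 2 + (1 + a ^ 2) := by linarith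
    rw [h6, h7] at h4
    have h8 : w.1 ^ 2 ≤ (1 + a ^ 2) * (X.1 ^ 2 - 1) := by nlinarith
    have h9 : X.1 ^ 2 ≤ R ^ 2 := by nlinarith
    have h10 : (1 + a ^ 2) ≤ (1 + |a|) ^ 2 := by nlinarith [abs_nonneg a, sq_abs a]
    calc w.1 ^ 2 ≤ (1 + a ^ 2) * (X.1 ^ 2 - 1) := h8
      _ ≤ (1 + a ^ 2) * R ^ 2 := by nlinarith [sq_nonneg a]
      _ ≤ (1 + |a|) ^ 2 * R ^ 2 := mul_le_mul_of_nonneg_right h10 (sq_nonneg _)
      _ = _ := by ring
  have hR0 : 0 < R := hX1.trans_le hXR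
  have h6 : |w.1| ≤ (1 + |a|) * R :=
    abs_le_of_sq_le_sq h5 (by positivity)
  have h7 : q.1 = w.1 + a * X.1 := by
    rw [hw]; simp
  have h8 : |q.1| ≤ (1 + 2 * c) * R := by
    rw [h7]
    calc |w.1 + a * X.1| ≤ |w.1| + |a * X.1| := abs_add_le _ _
      _ ≤ (1 + |a|) * R + |a| * R := by
        rw [abs_mul, abs_of_pos hX1]
        exact add_le_add h6 (mul_le_mul_of_nonneg_left hXR (abs_nonneg _))
      _ ≤ (1 + 2 * c) * R := by nlinarith
  have h9 : ‖q.2‖ ≤ (1 + 2 * c) * R + 1 := by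
    rw [D_self] at hq
    refine abs_le_of_sq_le_sq' ?_ (by positivity) |>.2
    have : q.1 ^ 2 ≤ ((1 + 2 * c) * R) ^ 2 := by rw [← sq_abs]; gcongr
    have h10 : 0 ≤ (1 + 2 * c) * R := by positivity
    nlinarith
  exact max_le (h8.trans (by linarith)) h9

/-! ### Groups of isometries -/

variable {Λ : Type*} [Group Λ] {ρ : Λ →* Module.End ℝ V}

theorem rho_inv_rho (γ : Λ) (v : V) : ρ γ⁻¹ (ρ γ v) = v := by
  rw [← Module.End.mul_apply, ← map_mul, inv_mul_cancel, map_one]; rfl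

theorem rho_rho_inv (γ : Λ) (v : V) : ρ γ (ρ γ⁻¹ v) = v := by
  rw [← Module.End.mul_apply, ← map_mul, mul_inv_cancel, map_one]; rfl

theorem rho_mul (γ δ : Λ) (v : V) : ρ (γ * δ) v = ρ γ (ρ δ v) := by
  rw [map_mul]; rfl

theorem rho_inj (γ : Λ) {v w : V} (h : ρ γ v = ρ γ w) : v = w := by
  rw [← rho_inv_rho (ρ := ρ) γ v, h, rho_inv_rho]

theorem D_rho_left (hA : Act ρ) (γ : Λ) (u v : V) : D (ρ γ u) v = D u (ρ γ⁻¹ v) := by
  rw [← hA.form γ u, rho_rho_inv]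

/-- the base point -/
def X00 : V := (1, 0)

theorem X00_mem : X00 ∈ H3 := by
  constructor
  · rw [D_self]; simp [X00]
  · simp [X00]

theorem rho_Cp (hA : Act ρ) (γ : Λ) {v : V} (hv : v ∈ Cp) : ρ γ v ∈ Cp := by
  by_cases h0 : v = 0
  · rw [h0, map_zero, ← h0]; exact hv
  have h : 0 ≤ D (ρ γ v) (ρ γ v) := by rw [hA.form]; exact D_self_nonneg hv
  rcases mem_or h with h1 | h1
  · exact h1
  · exfalso
    have h2 : 0 < D v X00 := D_pos hv h0 X00_mem
    have h3 : 0 < D (-ρ γ v) (ρ γ X00) := by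
      refine D_pos h1 (neg_ne_zero.2 fun h4 => h0 ?_) (hA.pos γ _ X00_mem)
      refine rho_inj (ρ := ρ) γ ?_
      rw [h4, map_zero]
    rw [D_neg_left, hA.form] at h3
    linarith

end Pool.Agent.H90.WC.Mk
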