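import Pool.Agent.H59.WC.MinkBase

/-!
The half-spaces on one side of an extremal plane (module E2 of the wandering continuum theorem).
-/

open Set Filter Topology

namespace Pool.Agent.H90.WC.Mk

open Pool.Agent.H90.WC

variable {Λ : Type*} [Group Λ] {ρ : Λ →* Module.End ℝ V} {Q : Set V}

theorem isClosed_Cp : IsClosed Cp := isClosed_le (by fun_prop) (by fun_prop)

theorem linear_bound (L : Module.End ℝ V) : ∃ C : ℝ, 0 ≤ C ∧ ∀ v, ‖L v‖ ≤ C * ‖v‖ :=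
  ⟨‖LinearMap.toContinuousLinearMap L‖, norm_nonneg _,
    (LinearMap.toContinuousLinearMap L).le_opNorm⟩

/-- a nonzero vector orthogonal to three given vectors -/
theorem exists_unit {Y : V} (hY : Y ∈ H3) (a b : V) :
    ∃ U : V, D U U = -1 ∧ D U Y = 0 ∧ D U a = 0 ∧ D U b = 0 := by
  let f : V → V →ₗ[ℝ] ℝ := fun w =>
    { toFun := fun v => D v w
      map_add' := fun u v => D_add_left u v w
      map_smul' := fun c v => D_smul_left c v w }
  let F : V →ₗ[ℝ] (Fin 3 → ℝ) := LinearMap.pi ![f Y, f a, f b]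
  have hr : Module.finrank ℝ (Fin 3 → ℝ) < Module.finrank ℝ V := by
    rw [Module.finrank_prod, Module.finrank_fin_fun, finrank_euclideanSpace_fin]
    simp
  have hk := LinearMap.ker_ne_bot_of_finrank_lt (f := F) hr
  obtain ⟨u, hu, hu0⟩ := (Submodule.ne_bot_iff _).1 hk
  rw [LinearMap.mem_ker] at hu
  have h0 : D u Y = 0 := congrFun hu 0
  have h1 : D u a = 0 := congrFun hu 1
  have h2 : D u b = 0 := congrFun hu 2
  have h3 := neg_of_orth hY h0 hu0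
  have h4 : 0 < -D u u := by linarith
  refine ⟨(Real.sqrt (-D u u))⁻¹ • u, ?_, ?_, ?_, ?_⟩
  · rw [D_smul_left, D_smul_right]
    have h5 : Real.sqrt (-D u u) ≠ 0 := (Real.sqrt_pos.2 h4).ne'
    have h6 : Real.sqrt (-D u u) * Real.sqrt (-D u u) = -D u u := Real.mul_self_sqrt h4.le
    field_simp
    rw [sq, h6]; ring
  · rw [D_smul_left, h0, mul_zero]
  · rw [D_smul_left, h1, mul_zero]
  · rw [D_smul_left, h2, mul_zero]

theorem exists_nearest {S : Set V} (hS : IsClosed S) (hne : S.Nonempty)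
    (hu : ∀ q ∈ S, D q q = -1) {Y : V} (hY : Y ∈ H3) :
    ∃ q ∈ S, ∀ q' ∈ S, |D q Y| ≤ |D q' Y| := by
  obtain ⟨q1, hq1⟩ := hne
  have hcont : Continuous fun q : V => |D q Y| :=
    (continuous_D.comp (continuous_id.prodMk continuous_const)).abs
  have hcl : IsClosed (S ∩ {q | |D q Y| ≤ |D q1 Y|}) :=
    hS.inter (isClosed_le hcont continuous_const)
  have hb : Bornology.IsBounded (S ∩ {q | |D q Y| ≤ |D q1 Y|}) := by
    rw [isBounded_iff_forall_norm_le]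
    exact ⟨_, fun q hq => f4 (hu q hq.1) hY le_rfl hq.2⟩
  obtain ⟨q, hq, hmin⟩ := (Metric.isCompact_of_isClosed_isBounded hcl hb).exists_isMinOn
    ⟨q1, hq1, (le_refl _ : |D q1 Y| ≤ |D q1 Y|)⟩ hcont.continuousOn
  refine ⟨q, hq.1, fun q' hq' => ?_⟩
  by_cases h : |D q' Y| ≤ |D q1 Y|
  · exact hmin ⟨hq', h⟩
  · exact hq.2.trans (not_le.1 h).le

/-- The extremal plane. -/
structure Setup (ρ : Λ →* Module.End ℝ V) (Q : Set V) (q0 X0 : V) : Prop where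
  hA : Act ρ
  hF : Fam ρ Q
  hX0 : X0 ∈ H3
  hq0 : q0 ∈ Q
  pos : 0 < D q0 X0
  hmin : ∀ q ∈ Q, D q0 X0 ≤ |D q X0|

theorem exists_setup (hA : Act ρ) (hF : Fam ρ Q) (hgap : ∃ X ∈ H3, ∀ q ∈ Q, D q X ≠ 0) :
    ∃ q0 X0, Setup ρ Q q0 X0 := by
  obtain ⟨X0, hX0, hne⟩ := hgap
  obtain ⟨q, hq, hmin⟩ := exists_nearest hF.closed hF.ne hF.unit hX0
  rcases lt_or_gt_of_ne (hne q hq) with h | h
  · refine ⟨-q, X0, hA, hF, hX0, hF.neg q hq, ?_, fun q' hq' => ?_⟩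
    · rw [D_neg_left]; linarith
    · rw [D_neg_left, ← abs_of_neg h]; exact hmin q' hq'
  · refine ⟨q, X0, hA, hF, hX0, hq, h, fun q' hq' => ?_⟩
    rw [← abs_of_pos h]; exact hmin q' hq'

/-- The planes behind the extremal plane. -/
def Qp (Q : Set V) (q0 : V) : Set V := {q | q ∈ Q ∧ q0 - q ∈ Cp ∧ q ≠ q0}

theorem diff_self {q q' : V} (h : D q q = -1) (h' : D q' q' = -1) :
    D (q - q') (q - q') = -2 - 2 * D q q' := by
  rw [D_sub_left, D_sub_right, D_sub_right, h, h', D_comm q' q]; ring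

theorem cone_of_le (hF : Fam ρ Q) {q q' : V} (hq : q ∈ Q) (hq' : q' ∈ Q) (h : D q q' < 1) :
    q - q' ∈ Cp ∨ q' - q ∈ Cp := by
  have h1 := hF.nc q hq q' hq'
  have h2 : D q q' ≤ -1 := by
    rcases le_abs.1 h1 with h2 | h2
    · linarith
    · linarith
  have h3 : 0 ≤ D (q - q') (q - q') := by
    rw [diff_self (hF.unit q hq) (hF.unit q' hq')]; linarith
  rcases mem_or h3 with h4 | h4
  · exact Or.inl h4
  · right; rwa [neg_sub] at h4

namespace Setup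

variable {q0 X0 : V}

theorem unit0 (s : Setup ρ Q q0 X0) : D q0 q0 = -1 := s.hF.unit _ s.hq0

theorem Qp_pos (_s : Setup ρ Q q0 X0) {q : V} (hq : q ∈ Qp Q q0) {X : V} (hX : X ∈ H3) :
    0 < D (q0 - q) X := D_pos hq.2.1 (sub_ne_zero.2 hq.2.2.symm) hX

theorem Qp_neg (s : Setup ρ Q q0 X0) {q : V} (hq : q ∈ Qp Q q0) {Y : V} (hY : Y ∈ H3)
    (h0 : D q0 Y = 0) : 0 < -D q Y := by
  have := s.Qp_pos hq hY
  rw [D_sub_left, h0] at this
  linarith

theorem Qp_le (s : Setup ρ Q q0 X0) {q : V} (hq : q ∈ Qp Q q0) : D q X0 ≤ -D q0 X0 := by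
  have h1 := s.Qp_pos hq s.hX0
  rw [D_sub_left] at h1
  have h2 := s.hmin q hq.1
  rcases le_abs.1 h2 with h3 | h3
  · linarith
  · linarith

theorem Qp_q0 (s : Setup ρ Q q0 X0) {q : V} (hq : q ∈ Qp Q q0) : D q0 q ≤ -1 := by
  have h1 := D_self_nonneg hq.2.1
  rw [diff_self s.unit0 (s.hF.unit q hq.1)] at h1
  linarith

theorem isClosed_Qp (s : Setup ρ Q q0 X0) : IsClosed (Qp Q q0) := by
  have h : Qp Q q0 = (Q ∩ {q | q0 - q ∈ Cp}) ∩ {q | D q X0 ≤ -D q0 X0} := by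
    ext q
    constructor
    · intro hq
      exact ⟨⟨hq.1, hq.2.1⟩, s.Qp_le hq⟩
    · rintro ⟨⟨h1, h2⟩, h3⟩
      refine ⟨h1, h2, ?_⟩
      rintro rfl
      have := s.pos
      have h4 : D q X0 ≤ -D q X0 := h3
      linarith
  rw [h]
  refine (s.hF.closed.inter (isClosed_Cp.preimage (by fun_prop))).inter
    (isClosed_le ?_ continuous_const)
  exact continuous_D.comp (continuous_id.prodMk continuous_const)

theorem Qp_rho (s : Setup ρ Q q0 X0) {γ : Λ} (hγ : ρ γ q0 = q0) {q : V} (hq : q ∈ Qp Q q0) :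
    ρ γ q ∈ Qp Q q0 := by
  refine ⟨s.hF.inv γ q hq.1, ?_, fun h => hq.2.2 ?_⟩
  · have := rho_Cp s.hA γ hq.2.1
    rwa [map_sub, hγ] at this
  · exact rho_inj (ρ := ρ) γ (h.trans hγ.symm)

theorem inv_fix {γ : Λ} (hγ : ρ γ q0 = q0) : ρ γ⁻¹ q0 = q0 := by
  rw [← hγ, rho_inv_rho, hγ]

/-- nearest plane to some point of the extremal plane -/
def Near (Q : Set V) (q0 q : V) : Prop :=
  q ∈ Qp Q q0 ∧ ∃ Y ∈ H3, D q0 Y = 0 ∧ ∀ q' ∈ Qp Q q0, -D q Y ≤ -D q' Y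

theorem exists_near (s : Setup ρ Q q0 X0) (hne : (Qp Q q0).Nonempty) {Y : V} (hY : Y ∈ H3)
    (h0 : D q0 Y = 0) : ∃ q, Near Q q0 q ∧ ∀ q' ∈ Qp Q q0, -D q Y ≤ -D q' Y := by
  obtain ⟨q, hq, hmin⟩ := exists_nearest s.isClosed_Qp hne (fun q hq => s.hF.unit q hq.1) hY
  have h : ∀ q' ∈ Qp Q q0, -D q Y ≤ -D q' Y := by
    intro q' hq'
    have h1 := hmin q' hq'
    rwa [abs_of_neg (by linarith [s.Qp_neg hq hY h0]),
      abs_of_neg (by linarith [s.Qp_neg hq' hY h0])] at h1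
  exact ⟨q, ⟨hq, Y, hY, h0, h⟩, h⟩

theorem Near.rho (s : Setup ρ Q q0 X0) {γ : Λ} (hγ : ρ γ q0 = q0) {q : V} (hq : Near Q q0 q) :
    Near Q q0 (ρ γ q) := by
  obtain ⟨h1, Y, hY, h0, hmin⟩ := hq
  refine ⟨s.Qp_rho hγ h1, ρ γ Y, s.hA.pos γ Y hY, ?_, fun q' hq' => ?_⟩
  · rw [← hγ, s.hA.form]; exact h0
  · rw [s.hA.form]
    have := hmin _ (s.Qp_rho (inv_fix hγ) hq')
    rwa [D_rho_left s.hA, inv_inv] at this

theorem near_pair (s : Setup ρ Q q0 X0) {q q' : V} (hq : Near Q q0 q) (hq' : Near Q q0 q')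
    (hne : q ≠ q') : 1 ≤ D q q' := by
  by_contra hcon
  have key : ∀ a b : V, Near Q q0 a → Near Q q0 b → a ≠ b → a - b ∈ Cp → False := by
    intro a b ha hb hab h
    obtain ⟨h1, Y, hY, h0, hmin⟩ := hb
    have h2 := D_pos h (sub_ne_zero.2 hab) hY
    have h3 := hmin a ha.1
    rw [D_sub_left] at h2
    linarith
  rcases cone_of_le s.hF hq.1.1 hq'.1.1 (not_le.1 hcon) with h | h
  · exact key q q' hq hq' hne h
  · exact key q' q hq' hq hne.symm h

theorem near_prod (s : Setup ρ Q q0 X0) {q q' : V} (hq : Near Q q0 q) (hq' : Near Q q0 q')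
    (hne : q ≠ q') {Y : V} (hY : Y ∈ H3) (h0 : D q0 Y = 0) : 1 ≤ D q Y * D q' Y := by
  have h1 := s.near_pair hq hq' hne
  have h2 := f3 hq.1.2.1 hq'.1.2.1 hY
  have h3 := s.Qp_q0 hq.1
  have h4 := s.Qp_q0 hq'.1
  have h5 : D (q0 - q) (q0 - q') = -1 - D q0 q' - D q0 q + D q q' := by
    rw [D_sub_left, D_sub_right, D_sub_right, s.unit0, D_comm q q0]; ring
  have h6 : D (q0 - q) Y = -D q Y := by rw [D_sub_left, h0]; ring
  have h7 : D (q0 - q') Y = -D q' Y := by rw [D_sub_left, h0]; ring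
  rw [h5, h6, h7] at h2
  nlinarith

/-- if a nearest plane is at distance one then all planes are -/
theorem ge_one (s : Setup ρ Q q0 X0) {q : V} (hq : Near Q q0 q) {Z : V} (hZ : Z ∈ H3)
    (h0 : D q0 Z = 0) (h1 : D q Z = -1) : ∀ q' ∈ Qp Q q0, 1 ≤ -D q' Z := by
  intro q' hq'
  obtain ⟨q'', hn, hmin⟩ := s.exists_near ⟨q', hq'⟩ hZ h0
  refine le_trans ?_ (hmin q' hq')
  by_cases h : q'' = q
  · rw [h, h1]; norm_num
  · have := s.near_prod hn hq h hZ h0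
    rw [h1] at this
    linarith

theorem exists_Z (s : Setup ρ Q q0 X0) {q : V} (hq : q ∈ Qp Q q0) {Y : V} (hY : Y ∈ H3)
    (h0 : D q0 Y = 0) (h1 : -D q Y ≤ 1) : ∃ Z ∈ H3, D q0 Z = 0 ∧ D q Z = -1 := by
  obtain ⟨p, hp⟩ : ∃ p, p = -D q Y := ⟨_, rfl⟩
  have hp0 : 0 < p := by rw [hp]; exact s.Qp_neg hq hY h0
  rw [← hp] at h1
  obtain ⟨U, hUU, hUY, hUq, hUr⟩ : ∃ U : V, D U U = -1 ∧ D U Y = 0 ∧ D U q0 = 0 ∧
      0 ≤ -D q U := by
    obtain ⟨U, h2, h3, h4, -⟩ := exists_unit hY q0 q0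
    rcases le_total 0 (-D q U) with h | h
    · exact ⟨U, h2, h3, h4, h⟩
    · refine ⟨-U, ?_, ?_, ?_, ?_⟩
      · rw [D_neg_left, D_neg_right, neg_neg, h2]
      · rw [D_neg_left, h3, neg_zero]
      · rw [D_neg_left, h4, neg_zero]
      · rw [D_neg_right]; linarith
  obtain ⟨r, hr⟩ : ∃ r, r = -D q U := ⟨_, rfl⟩
  rw [← hr] at hUr
  have hcont : ContinuousOn (fun t : ℝ => Real.sqrt (1 + t ^ 2) * p + t * r) (Icc 0 (1 / p)) := by
    fun_prop
  have hle : (0 : ℝ) ≤ 1 / p := by positivity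
  have himg := intermediate_value_Icc hle hcont
  have hmem : (1 : ℝ) ∈ Icc (Real.sqrt (1 + (0 : ℝ) ^ 2) * p + 0 * r)
      (Real.sqrt (1 + (1 / p) ^ 2) * p + 1 / p * r) := by
    constructor
    · simpa using h1
    · have h2 : 1 / p ≤ Real.sqrt (1 + (1 / p) ^ 2) := by
        apply Real.le_sqrt_of_sq_le; linarith
      have h3 : 1 / p * p = 1 := by field_simp
      have h4 : 1 / p * p ≤ Real.sqrt (1 + (1 / p) ^ 2) * p :=
        mul_le_mul_of_nonneg_right h2 hp0.le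
      have h5 : 0 ≤ 1 / p * r := by positivity
      linarith
  obtain ⟨t, ht, hft⟩ := himg hmem
  have hft' : Real.sqrt (1 + t ^ 2) * p + t * r = 1 := hft
  obtain ⟨c, hc⟩ : ∃ c, c = Real.sqrt (1 + t ^ 2) := ⟨_, rfl⟩
  have hcc : c ^ 2 = 1 + t ^ 2 := by rw [hc]; exact Real.sq_sqrt (by positivity)
  have hc0 : 0 < c := by rw [hc]; positivity
  rw [← hc] at hft'
  have hYY : D Y Y = 1 := hY.1
  have hZq : D q (c • Y + t • U) = -1 := by
    rw [D_add_right, D_smul_right, D_smul_right]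
    have e1 : D q Y = -p := by linarith
    have e2 : D q U = -r := by linarith
    rw [e1, e2]; linarith
  have hZZ : D (c • Y + t • U) (c • Y + t • U) = 1 := by
    simp only [D_add_left, D_add_right, D_smul_left, D_smul_right, hYY, hUU, hUY]
    rw [D_comm Y U, hUY]
    linear_combination hcc
  have hZY : D (c • Y + t • U) Y = c := by
    rw [D_add_left, D_smul_left, D_smul_left, hYY, hUY]; ring
  refine ⟨c • Y + t • U, ⟨hZZ, ?_⟩, ?_, hZq⟩
  · rcases mem_or (v := c • Y + t • U) (by rw [hZZ]; norm_num) with h | h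
    · refine fst_pos h fun h2 => ?_
      rw [h2, D_zero_left] at hZY
      exact hc0.ne hZY
    · exfalso
      have := D_nonneg h (H3_subset hY)
      rw [D_neg_left, hZY] at this
      linarith
  · rw [D_add_right, D_smul_right, D_smul_right, h0, D_comm, hUq]; ring

end Setup

end Pool.Agent.H90.WC.Mk
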